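import Pool.Agent.Lib.MP_3ade05_lc.Main

/-!
# MP_3ade05_lc: the ground model need not be definable in a generic extension of a model of ZF

There are a countable transitive model `V` of ZF, a copy `(P, le) ∈ V` of Cohen forcing and a
`V`-generic filter `G` such that `V` is not definable in `(V[G], ∈)`, even with finitely many
parameters from `V[G]`.  All definitions are in `Pool/Agent/Lib/MP_3ade05_lc/Defs.lean`.
-/

namespace Pool.Agent.Results.MP_3ade05_lc.GroundModelUndefinable

open Pool.MP_3ade05_lc

theorem result : ∃ (V : Set ZFSet.{0}) (P le : ZFSet.{0}) (G : Set ZFSet.{0}),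
    V.Countable ∧ (∀ x ∈ V, ∀ y ∈ x, y ∈ V) ∧ ZFModel V ∧ P ∈ V ∧ le ∈ V ∧
    IsForcing P le ∧ IsCohen P le ∧ IsGeneric V P le G ∧ V ⊆ Ext V G ∧
    ¬ DefinableWithParams (Ext V G) V := main

end Pool.Agent.Results.MP_3ade05_lc.GroundModelUndefinable
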